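import Pool.Agent.N549.SG.Stm

/-!
Project HG, fourth round (helper549), part SG/SPEC, first file: the eigenvalues of the Funk-Hecke
formula are the integrals of the Gegenbauer polynomials.
-/

set_option autoImplicit false

open MeasureTheory Metric Set Filter Topology
open scoped ENNReal RealInnerProductSpace Pointwise

namespace Pool.Agent.N187.SG

open Pool.Agent.N303.SH
open Pool.Agent.N549.SG (G)

variable {n : ℕ}

lemma coef_two (p : ℕ) : ((1 + Polynomial.X ^ 2 : Polynomial ℝ) ^ p).coeff 2 = p := by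
  have h0 : ∀ p : ℕ, ((1 + Polynomial.X ^ 2 : Polynomial ℝ) ^ p).coeff 0 = 1 := by
    intro p
    rw [Polynomial.coeff_zero_eq_eval_zero]
    simp
  induction p with
  | zero => simp [Polynomial.coeff_one]
  | succ p ih =>
    rw [pow_succ, mul_add, mul_one, Polynomial.coeff_add, ih, Polynomial.coeff_mul_X_pow']
    simp [h0]

/-- the moment identity -/
lemma M1 {u v w : E n} (h : ON2 u v) (hw : ‖w‖ = 1) (huw : ⟪u, w⟫ = 0) (hvw : ⟪v, w⟫ = 0)
    {ψ : ℝ → ℝ} (hψ : Continuous ψ) (i : ℕ) :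
    ((i : ℝ) + 1) * ∫ x : S n, ψ ⟪u, (x : E n)⟫ * ⟪v, (x : E n)⟫ ^ i * ⟪w, (x : E n)⟫ ^ 2 ∂(sg n) =
      ∫ x : S n, ψ ⟪u, (x : E n)⟫ * ⟪v, (x : E n)⟫ ^ (i + 2) ∂(sg n) := by
  set M : ℝ := ∫ x : S n, ψ ⟪u, (x : E n)⟫ * ⟪v, (x : E n)⟫ ^ (i + 2) ∂(sg n) with hM
  have hMm : mo u v ψ (i + 2) 0 = M := by
    unfold mo
    simp only [pow_zero, mul_one]
    rfl
  set J : ℕ → ℝ := fun m => ∫ x : S n, ψ ⟪u, (x : E n)⟫ * ⟪v, (x : E n)⟫ ^ (i + 2 - m) *
    ⟪w, (x : E n)⟫ ^ m ∂(sg n) with hJ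
  have hint : ∀ m, Integrable (fun x : S n => ψ ⟪u, (x : E n)⟫ * ⟪v, (x : E n)⟫ ^ (i + 2 - m) *
    ⟪w, (x : E n)⟫ ^ m) (sg n) := by
    intro m
    have hc : Continuous (fun x : S n => ψ ⟪u, (x : E n)⟫ * ⟪v, (x : E n)⟫ ^ (i + 2 - m) *
      ⟪w, (x : E n)⟫ ^ m) := by fun_prop
    exact int_c ⟨_, hc⟩
  have hnorm : ∀ s : ℝ, ‖v + s • w‖ ^ 2 = 1 + s ^ 2 := by
    intro s
    rw [norm_add_sq_real, inner_smul_right, hvw, norm_smul, h.hv, hw, Real.norm_eq_abs, mul_one,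
      sq_abs]
    ring
  have key : ∀ s : ℝ, ∑ m ∈ Finset.range (i + 2 + 1), ((i + 2).choose m : ℝ) * J m * s ^ m =
      ‖v + s • w‖ ^ (i + 2) * M := by
    intro s
    have h1 := mo_gen h ψ (i + 2) 0 (w := u) (b := v + s • w) h.hu (by
      rw [inner_add_right, inner_smul_right, h.huv, huw]; ring)
    rw [hMm] at h1
    rw [← h1]
    have e1 : ∀ x : S n, ψ ⟪u, (x : E n)⟫ * ⟪u, (x : E n)⟫ ^ 0 * ⟪v + s • w, (x : E n)⟫ ^ (i + 2) =
        ∑ m ∈ Finset.range (i + 2 + 1), (((i + 2).choose m : ℝ) * s ^ m) *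
          (ψ ⟪u, (x : E n)⟫ * ⟪v, (x : E n)⟫ ^ (i + 2 - m) * ⟪w, (x : E n)⟫ ^ m) := by
      intro x
      rw [inner_add_left, inner_smul_left, add_comm (⟪v, (x : E n)⟫), add_pow, Finset.mul_sum]
      refine Finset.sum_congr rfl fun m _ => ?_
      rw [conj_trivial, mul_pow]
      ring
    simp only [e1]
    rw [integral_finsetSum _ fun m _ => (hint m).const_mul _]
    refine Finset.sum_congr rfl fun m _ => ?_
    rw [integral_const_mul]
    ring
  set A : Polynomial ℝ := ∑ m ∈ Finset.range (i + 2 + 1),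
    Polynomial.monomial m (((i + 2).choose m : ℝ) * J m) with hA
  have hAe : ∀ s, A.eval s = ‖v + s • w‖ ^ (i + 2) * M := by
    intro s
    rw [← key s, hA, Polynomial.eval_finsetSum]
    refine Finset.sum_congr rfl fun m _ => ?_
    rw [Polynomial.eval_monomial]
  have hA2 : A.coeff 2 = ((i + 2).choose 2 : ℝ) * J 2 := by
    rw [hA, Polynomial.finsetSum_coeff]
    simp only [Polynomial.coeff_monomial]
    rw [Finset.sum_ite_eq' (Finset.range (i + 2 + 1)) 2]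
    rw [if_pos (Finset.mem_range.2 (by omega))]
  have hch : ((i + 2).choose 2 : ℝ) = ((i : ℝ) + 2) * (i + 1) / 2 := by
    rw [Nat.cast_choose_two]
    push_cast
    ring
  have hJ2 : J 2 = ∫ x : S n, ψ ⟪u, (x : E n)⟫ * ⟪v, (x : E n)⟫ ^ i * ⟪w, (x : E n)⟫ ^ 2 ∂(sg n) := by
    rw [hJ]
    simp only [Nat.add_sub_cancel]
  rw [← hJ2]
  rcases Nat.even_or_odd i with hi | hi
  · obtain ⟨p, hp⟩ := hi
    have hB : A = Polynomial.C M * (1 + Polynomial.X ^ 2) ^ (p + 1) := by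
      apply Polynomial.funext
      intro s
      rw [hAe]
      simp only [Polynomial.eval_mul, Polynomial.eval_C, Polynomial.eval_pow, Polynomial.eval_add,
        Polynomial.eval_one, Polynomial.eval_X]
      rw [← hnorm s, ← pow_mul, mul_comm, show 2 * (p + 1) = i + 2 by omega]
    have h2 := hA2
    rw [hB, Polynomial.coeff_C_mul, coef_two, hch] at h2
    have hpi : (i : ℝ) = 2 * p := by
      rw [hp]
      push_cast
      ring
    have h3 : ((i : ℝ) + 2) * ((i + 1) * J 2 - M) = 0 := by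
      have : M * ((p + 1 : ℕ) : ℝ) = M * ((i : ℝ) + 2) / 2 := by
        rw [hpi]
        push_cast
        ring
      rw [this] at h2
      linarith
    rcases mul_eq_zero.1 h3 with h4 | h4
    · have : (0 : ℝ) ≤ i := Nat.cast_nonneg _
      linarith
    · linarith
  · have hM0 : M = 0 := by
      rw [← hMm]
      exact mo_odd h ψ (hi.add_even even_two) 0
    have hB : A = 0 := by
      apply Polynomial.funext
      intro s
      rw [hAe, hM0]
      simp
    have h2 := hA2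
    rw [hB, Polynomial.coeff_zero, hch] at h2
    have hJ0 : J 2 = 0 := by
      have h5 : ((i : ℝ) + 2) * (i + 1) / 2 ≠ 0 := by positivity
      rcases mul_eq_zero.1 h2.symm with h6 | h6
      · exact absurd h6 h5
      · exact h6
    rw [hJ0, hM0, mul_zero]

/-- the complex form -/
lemma M2 {u v w : E n} (h : ON2 u v) (hw : ‖w‖ = 1) (huw : ⟪u, w⟫ = 0) (hvw : ⟪v, w⟫ = 0)
    {φ : ℝ → ℝ} (hφ : Continuous φ) (k : ℕ) :
    ((k : ℂ) + 1) * ∫ x : S n, (φ ⟪u, (x : E n)⟫ : ℂ) *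
        ((⟪u, (x : E n)⟫ : ℝ) + (⟪v, (x : E n)⟫ : ℝ) * Complex.I) ^ k *
        ((⟪w, (x : E n)⟫ : ℝ) : ℂ) ^ 2 ∂(sg n) =
      -Complex.I * ∫ x : S n, (φ ⟪u, (x : E n)⟫ : ℂ) *
        ((⟪u, (x : E n)⟫ : ℝ) + (⟪v, (x : E n)⟫ : ℝ) * Complex.I) ^ (k + 1) *
        ((⟪v, (x : E n)⟫ : ℝ) : ℂ) ∂(sg n) := by
  have hψ : ∀ l : ℕ, Continuous (fun t : ℝ => φ t * t ^ l) := fun l => by fun_prop
  have e1 : ∀ x : S n, (φ ⟪u, (x : E n)⟫ : ℂ) *
        ((⟪u, (x : E n)⟫ : ℝ) + (⟪v, (x : E n)⟫ : ℝ) * Complex.I) ^ k *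
        ((⟪w, (x : E n)⟫ : ℝ) : ℂ) ^ 2 = ∑ i ∈ Finset.range (k + 1),
        (Complex.I ^ i * (k.choose i : ℂ)) * (((φ ⟪u, (x : E n)⟫ * ⟪u, (x : E n)⟫ ^ (k - i)) *
          ⟪v, (x : E n)⟫ ^ i * ⟪w, (x : E n)⟫ ^ 2 : ℝ) : ℂ) := by
    intro x
    rw [add_comm ((⟪u, (x : E n)⟫ : ℝ) : ℂ), add_pow, Finset.mul_sum, Finset.sum_mul]
    refine Finset.sum_congr rfl fun i _ => ?_
    push_cast
    rw [mul_pow]
    ring
  have e2 : ∀ x : S n, (φ ⟪u, (x : E n)⟫ : ℂ) *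
        ((⟪u, (x : E n)⟫ : ℝ) + (⟪v, (x : E n)⟫ : ℝ) * Complex.I) ^ (k + 1) *
        ((⟪v, (x : E n)⟫ : ℝ) : ℂ) = ∑ i ∈ Finset.range (k + 1 + 1),
        (Complex.I ^ i * ((k + 1).choose i : ℂ)) *
          (((φ ⟪u, (x : E n)⟫ * ⟪u, (x : E n)⟫ ^ (k + 1 - i)) *
          ⟪v, (x : E n)⟫ ^ (i + 1) : ℝ) : ℂ) := by
    intro x
    rw [add_comm ((⟪u, (x : E n)⟫ : ℝ) : ℂ), add_pow, Finset.mul_sum, Finset.sum_mul]
    refine Finset.sum_congr rfl fun i _ => ?_
    push_cast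
    rw [mul_pow]
    ring
  simp only [e1, e2]
  rw [integral_finsetSum _ (fun i _ => by
      apply Integrable.const_mul
      apply int_cc
      fun_prop), integral_finsetSum _ (fun i _ => by
      apply Integrable.const_mul
      apply int_cc
      fun_prop)]
  simp only [integral_const_mul, integral_complex_ofReal]
  rw [Finset.sum_range_succ' _ (k + 1)]
  have h0 : ∫ x : S n, (φ ⟪u, (x : E n)⟫ * ⟪u, (x : E n)⟫ ^ (k + 1 - 0)) *
          ⟪v, (x : E n)⟫ ^ (0 + 1) ∂(sg n) = 0 := by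
    have := mo_odd h φ (i := 1) odd_one (k + 1)
    unfold mo at this
    simpa using this
  rw [h0, Complex.ofReal_zero, mul_zero, add_zero, Finset.mul_sum, Finset.mul_sum]
  refine Finset.sum_congr rfl fun i hi => ?_
  have h1 := M1 h hw huw hvw (hψ (k - i)) i
  have h2 : k + 1 - (i + 1) = k - i := by omega
  rw [h2]
  rw [show i + 1 + 1 = i + 2 by ring, ← h1]
  have h3 := Nat.add_one_mul_choose_eq k i
  have h4 : ((k : ℂ) + 1) * (k.choose i : ℂ) = ((k + 1).choose (i + 1) : ℂ) * ((i : ℂ) + 1) := by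
    exact_mod_cast h3
  have h5 : -Complex.I * Complex.I ^ (i + 1) = Complex.I ^ i := by
    rw [pow_succ]
    linear_combination (-Complex.I ^ i) * Complex.I_sq
  rw [Complex.ofReal_mul]
  push_cast
  linear_combination (Complex.I ^ i * ((∫ x : S n, φ ⟪u, (x : E n)⟫ * ⟪u, (x : E n)⟫ ^ (k - i) *
          ⟪v, (x : E n)⟫ ^ i * ⟪w, (x : E n)⟫ ^ 2 ∂(sg n) : ℝ) : ℂ)) * h4 -
      ((k + 1).choose (i + 1) : ℂ) * ((i : ℂ) + 1) *
        ((∫ x : S n, φ ⟪u, (x : E n)⟫ * ⟪u, (x : E n)⟫ ^ (k - i) *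
          ⟪v, (x : E n)⟫ ^ i * ⟪w, (x : E n)⟫ ^ 2 ∂(sg n) : ℝ) : ℂ) * h5

/-- the standard vectors -/
lemma on2 (c : ℕ) : ON2 (EuclideanSpace.single 0 1 : E (c + 2)) (EuclideanSpace.single 1 1) := by
  refine ⟨by simp, by simp, ?_⟩
  rw [EuclideanSpace.inner_single_left]
  simp

lemma in0 (c : ℕ) (i : Fin (c + 2)) (x : E (c + 2)) : ⟪(EuclideanSpace.single i 1 : E (c + 2)), x⟫ = x i := by
  rw [EuclideanSpace.inner_single_left]
  simp

lemma sum_tail (c : ℕ) (x : S (c + 2)) : ∑ j : Fin c, ((x : E (c + 2)) j.succ.succ) ^ 2 =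
    1 - ((x : E (c + 2)) 0) ^ 2 - ((x : E (c + 2)) 1) ^ 2 := by
  have h1 := S_norm x
  have h2 : ‖(x : E (c + 2))‖ ^ 2 = 1 := by rw [h1]; norm_num
  rw [EuclideanSpace.real_norm_sq_eq, Fin.sum_univ_succ, Fin.sum_univ_succ] at h2
  have : (Fin.succ 0 : Fin (c + 2)) = 1 := rfl
  rw [this] at h2
  linarith

/-- the complex coordinate -/
noncomputable def zz (c : ℕ) (x : S (c + 2)) : ℂ :=
  (((x : E (c + 2)) 0 : ℝ) : ℂ) + (((x : E (c + 2)) 1 : ℝ) : ℂ) * Complex.I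

lemma zz_cont (c : ℕ) : Continuous (zz c) := by
  unfold zz
  fun_prop

/-- the eigenvalues -/
noncomputable def lc (c : ℕ) (φ : ℝ → ℝ) (k : ℕ) : ℂ :=
  ∫ x : S (c + 2), (φ ((x : E (c + 2)) 0) : ℂ) * zz c x ^ k ∂(sg (c + 2))

lemma M3 (c : ℕ) {φ : ℝ → ℝ} (hφ : Continuous φ) (k : ℕ) (j : Fin c) :
    ((k : ℂ) + 1) * ∫ x : S (c + 2), (φ ((x : E (c + 2)) 0) : ℂ) * zz c x ^ k *
        (((x : E (c + 2)) j.succ.succ : ℝ) : ℂ) ^ 2 ∂(sg (c + 2)) =
      -Complex.I * ∫ x : S (c + 2), (φ ((x : E (c + 2)) 0) : ℂ) * zz c x ^ (k + 1) *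
        (((x : E (c + 2)) 1 : ℝ) : ℂ) ∂(sg (c + 2)) := by
  have h := M2 (on2 c) (w := EuclideanSpace.single j.succ.succ 1) (by simp)
    (by rw [EuclideanSpace.inner_single_left]; simp)
    (by
      rw [EuclideanSpace.inner_single_left]
      simp only [PiLp.single_apply, map_one, one_mul]
      rw [if_neg]
      intro h
      have := congrArg Fin.val h
      simp at this) hφ k
  simp only [in0] at h
  exact h

lemma int_z (c : ℕ) {φ : ℝ → ℝ} (hφ : Continuous φ) (k : ℕ) (i : Fin (c + 2)) (m : ℕ) :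
    Integrable (fun x : S (c + 2) => (φ ((x : E (c + 2)) 0) : ℂ) * zz c x ^ k *
      (((x : E (c + 2)) i : ℝ) : ℂ) ^ m) (sg (c + 2)) := by
  apply int_cc
  have := zz_cont c
  fun_prop

/-- the recurrence -/
lemma M4 (c : ℕ) {φ : ℝ → ℝ} (hφ : Continuous φ) (k : ℕ) :
    ((k : ℂ) + 1 + c) * lc c φ (k + 2) =
      (2 * (k + 1) + c) * lc c (fun t => t * φ t) (k + 1) - (k + 1) * lc c φ k := by
  set W : ℂ := ∫ x : S (c + 2), (φ ((x : E (c + 2)) 0) : ℂ) * zz c x ^ (k + 1) *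
        (((x : E (c + 2)) 1 : ℝ) : ℂ) ∂(sg (c + 2)) with hW
  set Q0 : ℂ := ∫ x : S (c + 2), (φ ((x : E (c + 2)) 0) : ℂ) * zz c x ^ k *
        (((x : E (c + 2)) 0 : ℝ) : ℂ) ^ 2 ∂(sg (c + 2)) with hQ0
  set Q1 : ℂ := ∫ x : S (c + 2), (φ ((x : E (c + 2)) 0) : ℂ) * zz c x ^ k *
        (((x : E (c + 2)) 1 : ℝ) : ℂ) ^ 2 ∂(sg (c + 2)) with hQ1
  -- sum over the remaining coordinates
  have h1 : ((k : ℂ) + 1) * (lc c φ k - Q0 - Q1) = -Complex.I * c * W := by
    have e1 : ∑ j : Fin c, ∫ x : S (c + 2), (φ ((x : E (c + 2)) 0) : ℂ) * zz c x ^ k *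
        (((x : E (c + 2)) j.succ.succ : ℝ) : ℂ) ^ 2 ∂(sg (c + 2)) = lc c φ k - Q0 - Q1 := by
      rw [← integral_finsetSum _ fun j _ => int_z c hφ k _ 2, hQ0, hQ1]
      unfold lc
      rw [← integral_sub, ← integral_sub]
      · congr 1
        ext x
        rw [← Finset.mul_sum]
        have e2 : ∑ j : Fin c, (((x : E (c + 2)) j.succ.succ : ℝ) : ℂ) ^ 2 =
            1 - (((x : E (c + 2)) 0 : ℝ) : ℂ) ^ 2 - (((x : E (c + 2)) 1 : ℝ) : ℂ) ^ 2 := by
          exact_mod_cast congrArg (fun r : ℝ => (r : ℂ)) (sum_tail c x)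
        rw [e2]
        ring
      · have i1 := int_z c hφ k 0 0
        have i2 := int_z c hφ k 0 2
        simp only [pow_zero, mul_one] at i1
        exact i1.sub i2
      · exact int_z c hφ k 1 2
      · have i1 := int_z c hφ k 0 0
        simpa only [pow_zero, mul_one] using i1
      · exact int_z c hφ k 0 2
    rw [← e1, Finset.mul_sum, Finset.sum_congr rfl fun j _ => M3 c hφ k j]
    simp only [Finset.sum_const, Finset.card_univ, Fintype.card_fin, nsmul_eq_mul]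
    ring
  have h2 : lc c φ (k + 2) = lc c (fun t => t * φ t) (k + 1) + Complex.I * W := by
    unfold lc
    rw [hW, ← integral_const_mul, ← integral_add]
    · congr 1
      ext x
      rw [pow_succ (zz c x) (k + 1)]
      conv_lhs => rw [show zz c x ^ (k + 1) * zz c x = zz c x ^ (k + 1) *
        ((((x : E (c + 2)) 0 : ℝ) : ℂ) + (((x : E (c + 2)) 1 : ℝ) : ℂ) * Complex.I) from rfl]
      push_cast
      ring
    · apply int_cc
      have := zz_cont c
      fun_prop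
    · apply int_cc
      have := zz_cont c
      fun_prop
  have h3 : Q0 + Q1 = lc c (fun t => t * φ t) (k + 1) - Complex.I * W := by
    unfold lc
    rw [hW, hQ0, hQ1, ← integral_const_mul, ← integral_add (int_z c hφ k 0 2) (int_z c hφ k 1 2),
      ← integral_sub]
    · congr 1
      ext x
      rw [pow_succ (zz c x) k]
      have e3 : (((x : E (c + 2)) 0 : ℝ) : ℂ) ^ 2 + (((x : E (c + 2)) 1 : ℝ) : ℂ) ^ 2 =
          zz c x * ((((x : E (c + 2)) 0 : ℝ) : ℂ) - (((x : E (c + 2)) 1 : ℝ) : ℂ) * Complex.I) := by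
        unfold zz
        linear_combination ((((x : E (c + 2)) 1 : ℝ) : ℂ) ^ 2) * Complex.I_sq
      rw [← mul_add, e3]
      push_cast
      ring
    · apply int_cc
      have := zz_cont c
      fun_prop
    · apply int_cc
      have := zz_cont c
      fun_prop
  linear_combination h1 + (k + 1 : ℂ) * h3 + ((k : ℂ) + 1 + c) * h2

lemma lc_one (c : ℕ) {φ : ℝ → ℝ} (hφ : Continuous φ) :
    lc c φ 1 = ∫ x : S (c + 2), (φ ((x : E (c + 2)) 0) : ℂ) * (((x : E (c + 2)) 0 : ℝ) : ℂ)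
      ∂(sg (c + 2)) := by
  have h0 : ∫ x : S (c + 2), φ ((x : E (c + 2)) 0) * ((x : E (c + 2)) 1) ∂(sg (c + 2)) = 0 := by
    have := mo_odd (on2 c) φ (i := 1) odd_one 0
    unfold mo at this
    simp only [in0, pow_zero, pow_one, mul_one] at this
    exact this
  have h1 : ∫ x : S (c + 2), (φ ((x : E (c + 2)) 0) : ℂ) * (((x : E (c + 2)) 1 : ℝ) : ℂ)
      ∂(sg (c + 2)) = 0 := by
    have e : ∀ x : S (c + 2), (φ ((x : E (c + 2)) 0) : ℂ) * (((x : E (c + 2)) 1 : ℝ) : ℂ) =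
        ((φ ((x : E (c + 2)) 0) * ((x : E (c + 2)) 1) : ℝ) : ℂ) := fun x => by push_cast; ring
    simp only [e]
    rw [integral_complex_ofReal, h0, Complex.ofReal_zero]
  have e : lc c φ 1 = ∫ x : S (c + 2), ((φ ((x : E (c + 2)) 0) : ℂ) * (((x : E (c + 2)) 0 : ℝ) : ℂ)
      + Complex.I * ((φ ((x : E (c + 2)) 0) : ℂ) * (((x : E (c + 2)) 1 : ℝ) : ℂ)))
      ∂(sg (c + 2)) := by
    unfold lc
    congr 1
    ext x
    unfold zz
    ring
  rw [e, integral_add (int_cc (by fun_prop)) (int_cc (by fun_prop)), integral_const_mul, h1,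
    mul_zero, add_zero]

lemma G_cont (c : ℕ) : ∀ k : ℕ, Continuous (G c k)
  | 0 => by
    have : G c 0 = fun _ => 1 := by
      funext t
      rfl
    rw [this]
    exact continuous_const
  | 1 => by
    have : G c 1 = fun t => t := by
      funext t
      rfl
    rw [this]
    exact continuous_id
  | k + 2 => by
    have h1 := G_cont c (k + 1)
    have h2 := G_cont c k
    have : G c (k + 2) = fun t => ((2 * (k + 1) + c) * t * G c (k + 1) t - (k + 1) * G c k t) /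
        (k + 1 + c) := by
      funext t
      rfl
    rw [this]
    fun_prop

/-- the eigenvalue is the integral of the Gegenbauer polynomial -/
lemma lc_G (c : ℕ) : ∀ (k : ℕ) (φ : ℝ → ℝ), Continuous φ → lc c φ k =
    ((∫ x : S (c + 2), φ ((x : E (c + 2)) 0) * G c k ((x : E (c + 2)) 0) ∂(sg (c + 2)) : ℝ) : ℂ)
  | 0, φ, hφ => by
    unfold lc
    have e : ∀ x : S (c + 2), (φ ((x : E (c + 2)) 0) : ℂ) * zz c x ^ 0 =
        ((φ ((x : E (c + 2)) 0) * G c 0 ((x : E (c + 2)) 0) : ℝ) : ℂ) := fun x => by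
      have : G c 0 ((x : E (c + 2)) 0) = 1 := rfl
      rw [this]
      push_cast
      ring
    simp only [e]
    rw [integral_complex_ofReal]
  | 1, φ, hφ => by
    rw [lc_one c hφ]
    have e : ∀ x : S (c + 2), (φ ((x : E (c + 2)) 0) : ℂ) * (((x : E (c + 2)) 0 : ℝ) : ℂ) =
        ((φ ((x : E (c + 2)) 0) * G c 1 ((x : E (c + 2)) 0) : ℝ) : ℂ) := fun x => by
      have : G c 1 ((x : E (c + 2)) 0) = (x : E (c + 2)) 0 := rfl
      rw [this]
      push_cast
      ring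
    simp only [e]
    rw [integral_complex_ofReal]
  | k + 2, φ, hφ => by
    have h1 := lc_G c (k + 1) (fun t => t * φ t) (by fun_prop)
    have h2 := lc_G c k φ hφ
    have h3 := M4 c hφ k
    rw [h1, h2] at h3
    have hk : ((k : ℂ) + 1 + c) ≠ 0 := by
      have : ((k : ℂ) + 1 + c) = ((k + 1 + c : ℕ) : ℂ) := by push_cast; ring
      rw [this]
      exact_mod_cast (by omega : k + 1 + c ≠ 0)
    apply mul_left_cancel₀ hk
    rw [h3]
    have hk2 : ((k : ℝ) + 1 + c) ≠ 0 := by positivity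
    have g1 := G_cont c (k + 1)
    have g2 := G_cont c k
    have h4 : ((k : ℝ) + 1 + c) * ∫ x : S (c + 2), φ ((x : E (c + 2)) 0) *
          G c (k + 2) ((x : E (c + 2)) 0) ∂(sg (c + 2)) =
        (2 * (k + 1) + c) * (∫ x : S (c + 2), (((x : E (c + 2)) 0) * φ ((x : E (c + 2)) 0)) *
          G c (k + 1) ((x : E (c + 2)) 0) ∂(sg (c + 2))) -
        (k + 1) * ∫ x : S (c + 2), φ ((x : E (c + 2)) 0) * G c k ((x : E (c + 2)) 0)
          ∂(sg (c + 2)) := by
      rw [← integral_const_mul, ← integral_const_mul, ← integral_const_mul, ← integral_sub]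
      · congr 1
        ext x
        have : G c (k + 2) ((x : E (c + 2)) 0) = ((2 * (k + 1) + c) * ((x : E (c + 2)) 0) *
          G c (k + 1) ((x : E (c + 2)) 0) - (k + 1) * G c k ((x : E (c + 2)) 0)) / (k + 1 + c) := rfl
        rw [this]
        field_simp
      · have hc : Continuous (fun x : S (c + 2) => (2 * ((k : ℝ) + 1) + c) *
            (((x : E (c + 2)) 0) * φ ((x : E (c + 2)) 0) * G c (k + 1) ((x : E (c + 2)) 0))) := by
          fun_prop
        exact int_c ⟨_, hc⟩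
      · have hc : Continuous (fun x : S (c + 2) => ((k : ℝ) + 1) *
            (φ ((x : E (c + 2)) 0) * G c k ((x : E (c + 2)) 0))) := by
          fun_prop
        exact int_c ⟨_, hc⟩
    have h5 := congrArg (fun r : ℝ => (r : ℂ)) h4
    push_cast at h5
    exact h5.symm

/-- the eigenvalue -/
noncomputable def lr (c : ℕ) (φ : ℝ → ℝ) (k : ℕ) : ℝ :=
  ∫ x : S (c + 2), φ ((x : E (c + 2)) 0) * G c k ((x : E (c + 2)) 0) ∂(sg (c + 2))

lemma la_G (c : ℕ) (k : ℕ) {φ : ℝ → ℝ} (hφ : Continuous φ) :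
    la (EuclideanSpace.single 0 1 : E (c + 2)) (EuclideanSpace.single 1 1) φ k = lr c φ k := by
  have h1 := la_eq (on2 c) hφ k
  simp only [in0] at h1
  have h2 := lc_G c k φ hφ
  unfold lc zz at h2
  rw [h2] at h1
  exact_mod_cast h1

end Pool.Agent.N187.SG
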