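import Pool.Agent.N187.SG.A

/-!
Project HG, fourth round (helper549), part SG/SPEC, second file: the quadratic form, the passage
to the indicator of a cap and to bounded measurable functions.
-/

set_option autoImplicit false

open MeasureTheory Metric Set Filter Topology
open scoped ENNReal RealInnerProductSpace Pointwise

namespace Pool.Agent.N187.SG

open Pool.Agent.N303.SH
open Pool.Agent.N549.SG (G sig near capVol capL S_SPEC)

variable {n : ℕ}

lemma To_zero (φ : ℝ → ℝ) (w : S n) : To φ (0 : C(S n, ℝ)) w = 0 := by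
  unfold To
  simp

lemma To_sum {φ : ℝ → ℝ} (hφ : Continuous φ) (s : Finset ℕ) (g : ℕ → C(S n, ℝ)) (w : S n) :
    To φ (∑ k ∈ s, g k) w = ∑ k ∈ s, To φ (g k) w := by
  classical
  induction s using Finset.induction_on with
  | empty => simp [To_zero]
  | insert a s ha ih => rw [Finset.sum_insert ha, Finset.sum_insert ha, To_add hφ, ih]

lemma ip_pk (k : ℕ) (f : C(S n, ℝ)) : ip f (pk k f) = ip (pk k f) (pk k f) := by
  have h1 : ∀ g : C(S n, ℝ), ip g (pk k f) = ∑ i, ip (Pool.Agent.N303.SH.e n k i) f *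
      ip (Pool.Agent.N303.SH.e n k i) g := by
    intro g
    rw [pk, ip_sum]
    refine Finset.sum_congr rfl fun i _ => ?_
    rw [ip_smul, ip_comm g]
  rw [h1, h1]
  refine Finset.sum_congr rfl fun i _ => ?_
  rw [ip_e_pk]

lemma quad (c m : ℕ) {φ : ℝ → ℝ} (hφ : Continuous φ) {f : C(S (c + 2), ℝ)} (hf : f ∈ P (c + 2) m) :
    ∫ w, f w * To φ f w ∂(sg (c + 2)) =
      ∑ k ∈ Finset.range (m + 1), lr c φ k * ip (pk k f) (pk k f) := by
  have h1 : ∀ w, To φ f w = ∑ k ∈ Finset.range (m + 1), lr c φ k * pk k f w := by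
    intro w
    conv_lhs => rw [exp_P m f hf]
    rw [To_sum hφ]
    refine Finset.sum_congr rfl fun k _ => ?_
    rw [FH (on2 c) hφ k (pk_mem k f), la_G c k hφ]
  have h2 : ∀ w, f w * To φ f w = ∑ k ∈ Finset.range (m + 1), lr c φ k * (f w * pk k f w) := by
    intro w
    rw [h1, Finset.mul_sum]
    refine Finset.sum_congr rfl fun k _ => ?_
    ring
  simp only [h2]
  rw [integral_finsetSum _ fun k _ => (int_mul f (pk k f)).const_mul _]
  refine Finset.sum_congr rfl fun k _ => ?_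
  rw [integral_const_mul, ← ip_pk]
  rfl

lemma ip_self_eq (m : ℕ) {f : C(S n, ℝ)} (hf : f ∈ P n m) :
    ip f f = ∑ k ∈ Finset.range (m + 1), ip (pk k f) (pk k f) := by
  conv_lhs => rw [show ip f f = ip f (∑ k ∈ Finset.range (m + 1), pk k f) by rw [← exp_P m f hf]]
  rw [ip_sum]
  refine Finset.sum_congr rfl fun k _ => ip_pk k f

lemma ip_nonneg (f : C(S n, ℝ)) : 0 ≤ ip f f := integral_nonneg fun x => mul_self_nonneg _

/-- elements of `P n 0` are constant -/
lemma P_zero {f : C(S n, ℝ)} (hf : f ∈ P n 0) : ∃ r : ℝ, f = algebraMap ℝ C(S n, ℝ) r := by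
  rw [mem_P] at hf
  obtain ⟨p, hp, rfl⟩ := hf
  obtain ⟨r, hr⟩ : ∃ r, p = MvPolynomial.C r := ⟨p.coeff 0, by
    exact MvPolynomial.totalDegree_eq_zero_iff_eq_C.1 (Nat.le_zero.1 hp)⟩
  refine ⟨r, ?_⟩
  rw [hr, ← MvPolynomial.algebraMap_eq]
  exact vC.commutes r

lemma ip_zero_comp (m : ℕ) {f : C(S n, ℝ)} (hf : f ∈ P n m) :
    ip (pk 0 f) (pk 0 f) * (sg n).real univ = (∫ x, f x ∂(sg n)) ^ 2 := by
  obtain ⟨r, hr⟩ := P_zero (H_le 0 (pk_mem 0 f))
  have h1 : ∫ x, f x ∂(sg n) = ip 1 f := by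
    unfold ip
    simp
  have h2 : ip 1 f = ip 1 (pk 0 f) := by
    conv_lhs => rw [exp_P m f hf]
    rw [ip_sum, Finset.sum_eq_single 0]
    · intro k _ hk
      exact H_perp (Nat.pos_of_ne_zero hk) (one_P 0) (pk_mem k f)
    · simp
  have h3 : ip 1 (pk 0 f) = r * (sg n).real univ := by
    rw [hr]
    unfold ip
    have : ∀ x : S n, (1 : C(S n, ℝ)) x * (algebraMap ℝ C(S n, ℝ) r) x = r := fun x => by
      have e1 : (algebraMap ℝ C(S n, ℝ) r) x = r := rfl
      rw [e1]
      simp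
    simp only [this]
    rw [integral_const, smul_eq_mul, mul_comm]
  have h4 : ip (pk 0 f) (pk 0 f) = r * r * (sg n).real univ := by
    rw [hr]
    unfold ip
    have : ∀ x : S n, (algebraMap ℝ C(S n, ℝ) r) x * (algebraMap ℝ C(S n, ℝ) r) x = r * r :=
      fun _ => rfl
    simp only [this]
    rw [integral_const, smul_eq_mul, mul_comm]
  rw [h1, h2, h3, h4]
  ring

/-- the indicator of a ray -/
noncomputable def chi (t : ℝ) : ℝ → ℝ := indicator (Ioi t) 1

/-- the approximations -/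
noncomputable def ap (t : ℝ) (j : ℕ) (s : ℝ) : ℝ := min 1 (max 0 ((j : ℝ) * (s - t)))

lemma ap_cont (t : ℝ) (j : ℕ) : Continuous (ap t j) := by
  unfold ap
  fun_prop

lemma ap_bd (t : ℝ) (j : ℕ) (s : ℝ) : 0 ≤ ap t j s ∧ ap t j s ≤ 1 := by
  unfold ap
  exact ⟨le_min zero_le_one (le_max_left _ _), min_le_left _ _⟩

lemma chi_bd (t s : ℝ) : 0 ≤ chi t s ∧ chi t s ≤ 1 := by
  unfold chi indicator
  split_ifs <;> simp

lemma ap_lim (t s : ℝ) : Tendsto (fun j => ap t j s) atTop (𝓝 (chi t s)) := by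
  unfold chi indicator
  split_ifs with h
  · have h' : 0 < s - t := sub_pos.2 h
    have h1 : ∀ᶠ j : ℕ in atTop, ap t j s = 1 := by
      obtain ⟨N, hN⟩ := exists_nat_gt (1 / (s - t))
      filter_upwards [eventually_ge_atTop N] with j hj
      have h2 : (N : ℝ) ≤ j := by exact_mod_cast hj
      have h3 : 1 ≤ (j : ℝ) * (s - t) := by
        rw [div_lt_iff₀ h'] at hN
        nlinarith
      unfold ap
      rw [max_eq_right (by linarith), min_eq_left h3]
    refine (tendsto_congr' h1).2 ?_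
    exact tendsto_const_nhds
  · have h1 : ∀ j : ℕ, ap t j s = 0 := by
      intro j
      have h2 : s ≤ t := not_lt.1 h
      have h3 : (j : ℝ) * (s - t) ≤ 0 :=
        mul_nonpos_of_nonneg_of_nonpos (Nat.cast_nonneg j) (by linarith)
      unfold ap
      rw [max_eq_left h3]
      exact min_eq_right zero_le_one
    simp only [h1]
    exact tendsto_const_nhds

lemma chi_meas (t : ℝ) : Measurable (chi t) := measurable_one.indicator measurableSet_Ioi

/-- the operator for measurable kernels and functions -/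
noncomputable def Tm (φ : ℝ → ℝ) (f : S n → ℝ) (w : S n) : ℝ :=
  ∫ x : S n, φ ⟪(w : E n), (x : E n)⟫ * f x ∂(sg n)

lemma Tm_meas {φ : ℝ → ℝ} (hφ : Measurable φ) {f : S n → ℝ} (hf : Measurable f) :
    StronglyMeasurable (Tm φ f) := by
  have h1 : Continuous (fun p : S n × S n => ⟪(p.1 : E n), (p.2 : E n)⟫) := by fun_prop
  have h2 : Measurable (Function.uncurry fun w x : S n => φ ⟪(w : E n), (x : E n)⟫ * f x) :=
    (hφ.comp h1.measurable).mul (hf.comp measurable_snd)
  exact h2.stronglyMeasurable.integral_prod_right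

lemma Tm_bd {φ : ℝ → ℝ} (hb : ∀ s, |φ s| ≤ 1) {f : S n → ℝ} {B : ℝ} (hB : ∀ x, |f x| ≤ B)
    (w : S n) : |Tm φ f w| ≤ B * (sg n).real univ := by
  have h1 : ∀ᵐ x : S n ∂(sg n), ‖φ ⟪(w : E n), (x : E n)⟫ * f x‖ ≤ B := by
    refine Eventually.of_forall fun x => ?_
    rw [norm_mul, Real.norm_eq_abs, Real.norm_eq_abs]
    calc |φ ⟪(w : E n), (x : E n)⟫| * |f x| ≤ 1 * B :=
          mul_le_mul (hb _) (hB x) (abs_nonneg _) zero_le_one
      _ = B := one_mul B
  exact norm_integral_le_of_norm_le_const h1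

lemma dct {φs : ℕ → ℝ → ℝ} {φ : ℝ → ℝ} {fs : ℕ → S n → ℝ} {f : S n → ℝ} {B : ℝ}
    (mφs : ∀ j, Measurable (φs j)) (mfs : ∀ j, Measurable (fs j))
    (bφs : ∀ j s, |φs j s| ≤ 1) (bfs : ∀ j x, |fs j x| ≤ B)
    (lφ : ∀ s, Tendsto (fun j => φs j s) atTop (𝓝 (φ s)))
    (lf : ∀ᵐ x ∂(sg n), Tendsto (fun j => fs j x) atTop (𝓝 (f x))) :
    Tendsto (fun j => ∫ w, fs j w * Tm (φs j) (fs j) w ∂(sg n)) atTop
      (𝓝 (∫ w, f w * Tm φ f w ∂(sg n))) := by
  have inner : ∀ w : S n, Tendsto (fun j => Tm (φs j) (fs j) w) atTop (𝓝 (Tm φ f w)) := by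
    intro w
    have hw : Continuous (fun x : S n => ⟪(w : E n), (x : E n)⟫) := by fun_prop
    unfold Tm
    refine tendsto_integral_of_dominated_convergence (fun _ => B) (fun j => ?_)
      (integrable_const B) (fun j => ?_) ?_
    · exact (((mφs j).comp hw.measurable).mul (mfs j)).aestronglyMeasurable
    · refine Eventually.of_forall fun x => ?_
      rw [norm_mul, Real.norm_eq_abs, Real.norm_eq_abs]
      calc |φs j ⟪(w : E n), (x : E n)⟫| * |fs j x| ≤ 1 * B :=
            mul_le_mul (bφs _ _) (bfs _ _) (abs_nonneg _) zero_le_one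
        _ = B := one_mul B
    · filter_upwards [lf] with x hx
      exact (lφ _).mul hx
  refine tendsto_integral_of_dominated_convergence (fun _ => B * (B * (sg n).real univ))
    (fun j => ?_) (integrable_const _) (fun j => ?_) ?_
  · exact ((mfs j).aestronglyMeasurable).mul
      (Tm_meas (mφs j) (mfs j)).aestronglyMeasurable
  · refine Eventually.of_forall fun w => ?_
    rw [norm_mul, Real.norm_eq_abs, Real.norm_eq_abs]
    exact mul_le_mul (bfs _ _) (Tm_bd (bφs j) (bfs j) w) (abs_nonneg _)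
      ((abs_nonneg _).trans (bfs j w))
  · filter_upwards [lf] with w hw
    exact hw.mul (inner w)

lemma lr_lim (c k : ℕ) (t : ℝ) :
    Tendsto (fun j => lr c (ap t j) k) atTop (𝓝 (lr c (chi t) k)) := by
  unfold lr
  have hG : Continuous (fun x : S (c + 2) => G c k ((x : E (c + 2)) 0)) := by
    have := G_cont c k
    fun_prop
  have h0 : Continuous (fun x : S (c + 2) => (x : E (c + 2)) 0) := by fun_prop
  refine tendsto_integral_of_dominated_convergence
    (fun x : S (c + 2) => |G c k ((x : E (c + 2)) 0)|) (fun j => ?_)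
      (int_c ⟨_, hG.abs⟩) (fun j => ?_) ?_
  · exact (((ap_cont t j).comp h0).mul hG).aestronglyMeasurable
  · refine Eventually.of_forall fun x => ?_
    rw [norm_mul, Real.norm_eq_abs, Real.norm_eq_abs]
    have h1 := ap_bd t j ((x : E (c + 2)) 0)
    calc |ap t j ((x : E (c + 2)) 0)| * |G c k ((x : E (c + 2)) 0)| ≤
          1 * |G c k ((x : E (c + 2)) 0)| :=
            mul_le_mul_of_nonneg_right (abs_le.2 ⟨by linarith, h1.2⟩) (abs_nonneg _)
      _ = _ := one_mul _
  · exact Eventually.of_forall fun x => (ap_lim t _).mul_const _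

lemma quad_chi (c m : ℕ) (t : ℝ) {f : C(S (c + 2), ℝ)} (hf : f ∈ P (c + 2) m) :
    ∫ w, f w * Tm (chi t) f w ∂(sg (c + 2)) =
      ∑ k ∈ Finset.range (m + 1), lr c (chi t) k * ip (pk k f) (pk k f) := by
  have h1 := dct (n := c + 2) (φs := ap t) (φ := chi t) (fs := fun _ => f) (f := f) (B := ‖f‖)
    (fun j => (ap_cont t j).measurable) (fun _ => f.continuous.measurable)
    (fun j s => abs_le.2 ⟨by linarith [(ap_bd t j s).1], (ap_bd t j s).2⟩)
    (fun _ x => f.norm_coe_le_norm x) (ap_lim t) (Eventually.of_forall fun x => tendsto_const_nhds)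
  have h2 : ∀ j, ∫ w, f w * Tm (ap t j) f w ∂(sg (c + 2)) =
      ∑ k ∈ Finset.range (m + 1), lr c (ap t j) k * ip (pk k f) (pk k f) :=
    fun j => quad c m (ap_cont t j) hf
  have h3 : Tendsto (fun j => ∑ k ∈ Finset.range (m + 1), lr c (ap t j) k *
      ip (pk k f) (pk k f)) atTop
      (𝓝 (∑ k ∈ Finset.range (m + 1), lr c (chi t) k * ip (pk k f) (pk k f))) :=
    tendsto_finsetSum _ fun k _ => (lr_lim c k t).mul_const _
  simp only [h2] at h1
  exact tendsto_nhds_unique h1 h3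

lemma low_P (c m : ℕ) (t K : ℝ) (hK : 0 ≤ K) (hl : ∀ k, 1 ≤ k → -K ≤ lr c (chi t) k)
    {f : C(S (c + 2), ℝ)} (hf : f ∈ P (c + 2) m) :
    lr c (chi t) 0 * (∫ x, f x ∂(sg (c + 2))) ^ 2 - K * (sg (c + 2)).real univ * ip f f ≤
      (sg (c + 2)).real univ * ∫ w, f w * Tm (chi t) f w ∂(sg (c + 2)) := by
  rw [quad_chi c m t hf, ← ip_zero_comp m hf]
  have h1 : lr c (chi t) 0 * ip (pk 0 f) (pk 0 f) - K * ip f f ≤
      ∑ k ∈ Finset.range (m + 1), lr c (chi t) k * ip (pk k f) (pk k f) := by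
    rw [ip_self_eq m hf, Finset.sum_range_succ', Finset.sum_range_succ']
    have h2 : ∑ k ∈ Finset.range m, (-K) * ip (pk (k + 1) f) (pk (k + 1) f) ≤
        ∑ k ∈ Finset.range m, lr c (chi t) (k + 1) * ip (pk (k + 1) f) (pk (k + 1) f) :=
      Finset.sum_le_sum fun k _ =>
        mul_le_mul_of_nonneg_right (hl (k + 1) (by omega)) (ip_nonneg _)
    rw [← Finset.mul_sum] at h2
    have h3 := mul_nonneg hK (ip_nonneg (pk 0 f))
    nlinarith
  have hA : 0 ≤ (sg (c + 2)).real univ := measureReal_nonneg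
  have h4 := mul_le_mul_of_nonneg_left h1 hA
  nlinarith

end Pool.Agent.N187.SG
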