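import Pool.Agent.N549.SG.Stm2
import Pool.Agent.N80.SG.Rec

/-!
Project HG, fourth round (helper549), part SG/BES: Bessel's inequality for the indicator of a cap.
-/

set_option autoImplicit false

namespace Pool.Agent.N187.SG.BES

open MeasureTheory Set Filter Topology
open scoped ENNReal NNReal RealInnerProductSpace
open Pool.Agent.N303.SH (E S sg)
open Pool.Agent.N549.SG (sig near capVol G capL S_BES)
open Pool.Agent.N80.SG

/-- the derivative of a Gegenbauer polynomial -/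
lemma relD (c : ℕ) (u : ℝ) : ∀ k : ℕ,
    ((c : ℝ) + 1) * G' c (k + 1) u = ((k : ℝ) + 1) * (k + 1 + c) * G (c + 2) k u ∧
    ((c : ℝ) + 1) * G' c (k + 2) u = ((k : ℝ) + 2) * (k + 2 + c) * G (c + 2) (k + 1) u := by
  intro k
  induction k with
  | zero =>
    have h1 := G'_rec c 0 u
    have e1 : G' c 1 u = 1 := rfl
    have e2 : G' c 0 u = 0 := rfl
    have e3 : G (c + 2) 0 u = 1 := rfl
    have e4 : G (c + 2) 1 u = u := rfl
    have e5 : G c 1 u = u := rfl
    simp only [zero_add] at h1 ⊢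
    rw [e1, e2, e5] at h1
    rw [e1, e3, e4]
    push_cast at h1 ⊢
    refine ⟨by ring, ?_⟩
    linear_combination h1
  | succ k ih =>
    obtain ⟨h1, h2⟩ := ih
    refine ⟨?_, ?_⟩
    · rw [show k + 1 + 1 = k + 2 from rfl]
      push_cast
      linear_combination h2
    · rw [show k + 1 + 1 = k + 2 from rfl, show k + 1 + 2 = k + 3 from rfl]
      have h3 := G'_rec c (k + 1) u
      have h4 := (relC c u k).2
      have h5 := G_rec (c + 2) k u
      rw [show k + 1 + 1 = k + 2 from rfl, show k + 1 + 2 = k + 3 from rfl] at h3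
      push_cast at h3 h4 h5 ⊢
      have hk : ((k : ℝ) + 2 + c) ≠ 0 := by positivity
      refine mul_left_cancel₀ hk ?_
      linear_combination ((c : ℝ) + 1) * h3 + (2 * ((k : ℝ) + 2) + c) * h4 +
        (2 * ((k : ℝ) + 2) + c) * u * h2 - ((k : ℝ) + 2) * h1 -
        ((k : ℝ) + 2) * (k + 1 + c) * h5

/-- integration against `G (j + 1)` -/
lemma adj (c j : ℕ) {ψ ψ' : ℝ → ℝ} (hd : ∀ s, HasDerivAt ψ (ψ' s) s) (hc : Continuous ψ') :
    ((c : ℝ) + 1) * ∫ x : S (c + 2), G c (j + 1) ((x : E (c + 2)) 0) * ψ ((x : E (c + 2)) 0)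
        ∂(sg (c + 2)) =
      ∫ x : S (c + 2), (1 - (x : E (c + 2)) 0 ^ 2) * (G (c + 2) j ((x : E (c + 2)) 0) *
        ψ' ((x : E (c + 2)) 0)) ∂(sg (c + 2)) := by
  have hψ : Continuous ψ := continuous_iff_continuousAt.2 fun s => (hd s).continuousAt
  have g1 := G_cont (c + 2) j
  have g2 := (G'_cont (c + 2) j).1
  have g3 := G_cont c (j + 1)
  have h1 := divphi c (φ := fun u => G (c + 2) j u * ψ u)
    (φ' := fun u => G' (c + 2) j u * ψ u + G (c + 2) j u * ψ' u)
    (fun s => ((G_hd (c + 2) j).1 s).mul (hd s)) (by fun_prop)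
  have h2 : ∀ x : S (c + 2), (((c : ℝ) + 1) * ((x : E (c + 2)) 0 *
      (G (c + 2) j ((x : E (c + 2)) 0) * ψ ((x : E (c + 2)) 0))) -
      (1 - (x : E (c + 2)) 0 ^ 2) * (G' (c + 2) j ((x : E (c + 2)) 0) * ψ ((x : E (c + 2)) 0) +
        G (c + 2) j ((x : E (c + 2)) 0) * ψ' ((x : E (c + 2)) 0))) =
      ((c : ℝ) + 1) * (G c (j + 1) ((x : E (c + 2)) 0) * ψ ((x : E (c + 2)) 0)) -
        (1 - (x : E (c + 2)) 0 ^ 2) * (G (c + 2) j ((x : E (c + 2)) 0) *
          ψ' ((x : E (c + 2)) 0)) := by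
    intro x
    have h3 := relI c j ((x : E (c + 2)) 0)
    linear_combination ψ ((x : E (c + 2)) 0) * h3
  simp only [h2] at h1
  rw [integral_sub (int_rc (by fun_prop)) (int_rc (by fun_prop)), integral_const_mul] at h1
  linarith

/-- the inner products -/
noncomputable def II (c i j : ℕ) : ℝ :=
  ∫ x : S (c + 2), G c i ((x : E (c + 2)) 0) * G c j ((x : E (c + 2)) 0) ∂(sg (c + 2))

lemma II_comm (c i j : ℕ) : II c i j = II c j i := by
  unfold II
  simp only [mul_comm]

lemma orth0 (c j : ℕ) : II c (j + 1) 0 = 0 := by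
  have h1 := adj c j (ψ := fun _ => 1) (ψ' := fun _ => 0) (fun s => hasDerivAt_const s (1 : ℝ))
    continuous_const
  simp only [mul_zero, integral_zero] at h1
  have hc : ((c : ℝ) + 1) ≠ 0 := by positivity
  exact (mul_eq_zero.1 h1).resolve_left hc

lemma adj2 (c i j : ℕ) : ((c : ℝ) + 1) ^ 2 * II c (j + 1) (i + 1) =
    ((i : ℝ) + 1) * (i + 1 + c) * ∫ x : S (c + 2), (1 - (x : E (c + 2)) 0 ^ 2) *
      (G (c + 2) j ((x : E (c + 2)) 0) * G (c + 2) i ((x : E (c + 2)) 0)) ∂(sg (c + 2)) := by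
  have h1 := adj c j (ψ := G c (i + 1)) (ψ' := G' c (i + 1)) (G_hd c i).2 (G'_cont c i).2
  have h2 : ((c : ℝ) + 1) ^ 2 * II c (j + 1) (i + 1) = ((c : ℝ) + 1) *
      ∫ x : S (c + 2), (1 - (x : E (c + 2)) 0 ^ 2) *
        (G (c + 2) j ((x : E (c + 2)) 0) * G' c (i + 1) ((x : E (c + 2)) 0)) ∂(sg (c + 2)) := by
    rw [← h1]
    unfold II
    ring
  rw [h2, ← integral_const_mul, ← integral_const_mul]
  congr 1
  ext x
  have h3 := (relD c ((x : E (c + 2)) 0) i).1
  linear_combination ((1 - (x : E (c + 2)) 0 ^ 2) * G (c + 2) j ((x : E (c + 2)) 0)) * h3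

lemma orth (c k : ℕ) : II c (k + 2) k = 0 := by
  rcases k with _ | i
  · exact orth0 c 1
  · have h1 := adj2 c i (i + 2)
    have h2 := adj2 c (i + 2) i
    rw [II_comm] at h2
    set Y : ℝ := ∫ x : S (c + 2), (1 - (x : E (c + 2)) 0 ^ 2) *
      (G (c + 2) (i + 2) ((x : E (c + 2)) 0) * G (c + 2) i ((x : E (c + 2)) 0)) ∂(sg (c + 2))
      with hY
    have hY' : ∫ x : S (c + 2), (1 - (x : E (c + 2)) 0 ^ 2) *
      (G (c + 2) i ((x : E (c + 2)) 0) * G (c + 2) (i + 2) ((x : E (c + 2)) 0)) ∂(sg (c + 2)) = Y := by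
      rw [hY]
      congr 1
      ext x
      ring
    rw [hY'] at h2
    have h3 : (((i + 2 : ℕ) : ℝ) + 1) * (((i + 2 : ℕ) : ℝ) + 1 + c) * Y -
        ((i : ℝ) + 1) * (i + 1 + c) * Y = 0 := by
      rw [← h1, ← h2]
      ring
    have h4 : (2 * (2 * (i : ℝ) + 4 + c)) * Y = 0 := by
      push_cast at h3
      linear_combination h3
    have h5 : Y = 0 := by
      rcases mul_eq_zero.1 h4 with h | h
      · have : (0 : ℝ) < 2 * (2 * (i : ℝ) + 4 + c) := by positivity
        linarith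
      · exact h
    rw [h5, mul_zero] at h1
    have h6 : ((c : ℝ) + 1) ^ 2 ≠ 0 := by positivity
    exact (mul_eq_zero.1 h1).resolve_left h6

/-- the integrals with a factor `u` -/
noncomputable def VV (c k : ℕ) : ℝ :=
  ∫ x : S (c + 2), (x : E (c + 2)) 0 * (G c k ((x : E (c + 2)) 0) * G c (k + 1) ((x : E (c + 2)) 0))
    ∂(sg (c + 2))

lemma rec_mul (c k i : ℕ) : ((k : ℝ) + 1 + c) * II c (k + 2) i =
    (2 * (k + 1) + c) * (∫ x : S (c + 2), (x : E (c + 2)) 0 * (G c (k + 1) ((x : E (c + 2)) 0) *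
      G c i ((x : E (c + 2)) 0)) ∂(sg (c + 2))) - (k + 1) * II c k i := by
  have g1 := G_cont c (k + 1)
  have g2 := G_cont c k
  have g3 := G_cont c i
  unfold II
  rw [← integral_const_mul, ← integral_const_mul, ← integral_const_mul,
    ← integral_sub (int_rc (by fun_prop)) (int_rc (by fun_prop))]
  congr 1
  ext x
  have h := G_rec c k ((x : E (c + 2)) 0)
  linear_combination G c i ((x : E (c + 2)) 0) * h

lemma VV_eq (c k : ℕ) : (2 * ((k : ℝ) + 1) + c) * VV c k = (k + 1) * II c k k := by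
  have h1 := rec_mul c k k
  rw [orth, mul_zero] at h1
  have h2 : ∫ x : S (c + 2), (x : E (c + 2)) 0 * (G c (k + 1) ((x : E (c + 2)) 0) *
      G c k ((x : E (c + 2)) 0)) ∂(sg (c + 2)) = VV c k := by
    unfold VV
    congr 1
    ext x
    ring
  rw [h2] at h1
  linarith

lemma II_two (c k : ℕ) : ((k : ℝ) + 1 + c) * II c (k + 2) (k + 2) =
    (2 * (k + 1) + c) * VV c (k + 1) := by
  have h1 := rec_mul c k (k + 2)
  rw [II_comm c k (k + 2), orth, mul_zero, sub_zero] at h1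
  exact h1

lemma II_one (c : ℕ) : II c 1 1 = VV c 0 := by
  unfold II VV
  congr 1
  ext x
  have e1 : G c 1 ((x : E (c + 2)) 0) = (x : E (c + 2)) 0 := rfl
  have e2 : G c 0 ((x : E (c + 2)) 0) = 1 := rfl
  rw [zero_add, e1, e2]
  ring

lemma II_zero (c : ℕ) : II c 0 0 = (sg (c + 2)).real univ := by
  unfold II
  have e2 : ∀ x : S (c + 2), G c 0 ((x : E (c + 2)) 0) * G c 0 ((x : E (c + 2)) 0) = 1 := fun x => by
    have : G c 0 ((x : E (c + 2)) 0) = 1 := rfl
    rw [this, mul_one]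
  simp only [e2]
  simp

lemma II_eq {c : ℕ} (hc : 1 ≤ c) : ∀ k : ℕ,
    II c k k * (2 * (k : ℝ) + c) * ((k + c - 1).choose k : ℝ) = c * (sg (c + 2)).real univ
  | 0 => by
    rw [II_zero]
    simp
    ring
  | 1 => by
    have h1 := VV_eq c 0
    rw [← II_one, II_zero] at h1
    have e : 1 + c - 1 = c := by omega
    rw [e, Nat.choose_one_right]
    push_cast at h1 ⊢
    linear_combination (c : ℝ) * h1
  | k + 2 => by
    have ih := II_eq hc (k + 1)
    have h1 := VV_eq c (k + 1)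
    have h2 := II_two c k
    have e1 : k + 1 + c - 1 = k + c := by omega
    have e2 : k + 2 + c - 1 = k + c + 1 := by omega
    rw [e1] at ih
    rw [e2]
    have h3 : ((k + c + 1).choose (k + 2) : ℝ) * ((k : ℝ) + 2) =
        ((k : ℝ) + c + 1) * ((k + c).choose (k + 1) : ℝ) := by
      have := Nat.add_one_mul_choose_eq (k + c) (k + 1)
      have h4 : (((k + c + 1) * (k + c).choose (k + 1) : ℕ) : ℝ) =
        (((k + c + 1).choose (k + 1 + 1) * (k + 1 + 1) : ℕ) : ℝ) := by rw [this]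
      push_cast at h4
      rw [show k + 1 + 1 = k + 2 from rfl] at h4
      linarith
    rw [← ih]
    push_cast at h1 h2 h3 ⊢
    have hk : ((k : ℝ) + 1 + c) ≠ 0 := by positivity
    have hk2 : (2 * ((k : ℝ) + 1 + 1) + c) ≠ 0 := by positivity
    have hk3 : ((k : ℝ) + 2) ≠ 0 := by positivity
    -- (k+1+c) I'' = (2k+2+c) V, (2k+4+c) V = (k+2) I'
    have h5 : ((k : ℝ) + 1 + c) * II c (k + 2) (k + 2) * (2 * ((k : ℝ) + 1 + 1) + c) =
        (2 * (k + 1) + c) * ((k + 1 + 1) * II c (k + 1) (k + 1)) := by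
      rw [h2, ← h1]
      ring
    refine mul_left_cancel₀ hk (mul_left_cancel₀ hk3 ?_)
    linear_combination ((k : ℝ) + 2) * ((k + c + 1).choose (k + 2) : ℝ) * h5 +
      ((2 * ((k : ℝ) + 1) + c) * ((k + 1 + 1) * II c (k + 1) (k + 1))) * h3

lemma cap_cs (c k : ℕ) (t : ℝ) : Lc c t k ^ 2 ≤ (sg (c + 2)).real (cap c t) * II c k k := by
  have g := G_cont c k
  set μ := (sg (c + 2)).restrict (cap c t) with hμ
  have i1 : Integrable (fun x : S (c + 2) => G c k ((x : E (c + 2)) 0)) μ :=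
    (int_rc (by fun_prop)).integrableOn
  have i2 : Integrable (fun x : S (c + 2) => G c k ((x : E (c + 2)) 0) ^ 2) μ :=
    (int_rc (by fun_prop)).integrableOn
  have h1 : ∀ r : ℝ, 0 ≤ (sg (c + 2)).real (cap c t) * (r * r) + (-2 * Lc c t k) * r +
      ∫ x, G c k ((x : E (c + 2)) 0) ^ 2 ∂μ := by
    intro r
    have h2 : 0 ≤ ∫ x : S (c + 2), (G c k ((x : E (c + 2)) 0) - r) ^ 2 ∂μ :=
      integral_nonneg fun x => sq_nonneg _
    have h3 : ∫ x : S (c + 2), (G c k ((x : E (c + 2)) 0) - r) ^ 2 ∂μ =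
        ∫ x : S (c + 2), (G c k ((x : E (c + 2)) 0) ^ 2 + ((-2 * r) * G c k ((x : E (c + 2)) 0) +
          r ^ 2)) ∂μ := by
      congr 1
      ext x
      ring
    have e1 := integral_add i2 ((i1.const_mul (-2 * r)).add (integrable_const (r ^ 2)))
    have e2 := integral_add (i1.const_mul (-2 * r)) (integrable_const (r ^ 2))
    simp only [Pi.add_apply] at e1
    rw [h3, e1, e2, integral_const_mul, integral_const, smul_eq_mul] at h2
    have h4 : μ.real univ = (sg (c + 2)).real (cap c t) := by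
      rw [hμ, measureReal_restrict_apply MeasurableSet.univ, univ_inter]
    rw [h4] at h2
    unfold Lc
    rw [← hμ]
    linarith
  have h5 := discrim_le_zero h1
  unfold discrim at h5
  have h6 : ∫ x, G c k ((x : E (c + 2)) 0) ^ 2 ∂μ ≤ II c k k := by
    have h7 : II c k k = ∫ x : S (c + 2), G c k ((x : E (c + 2)) 0) ^ 2 ∂(sg (c + 2)) := by
      unfold II
      congr 1
      ext x
      ring
    rw [h7]
    exact setIntegral_le_integral (int_rc (by fun_prop)) (Eventually.of_forall fun x => sq_nonneg _)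
  have h8 : 0 ≤ (sg (c + 2)).real (cap c t) := measureReal_nonneg
  have h9 := mul_le_mul_of_nonneg_left h6 h8
  nlinarith

theorem bes : S_BES := by
  intro c k t hc ht0 ht1
  rw [capL_eq, capVol_eq]
  set r : ℝ := ((sg (c + 2) univ)⁻¹).toReal with hr
  have hr0 : 0 ≤ r := ENNReal.toReal_nonneg
  have hrA : r * (sg (c + 2)).real univ ≤ 1 := by
    rw [hr, ENNReal.toReal_inv]
    exact inv_mul_le_one
  have h1 := cap_cs c k t
  have h2 := II_eq hc k
  have hcr : (1 : ℝ) ≤ c := by exact_mod_cast hc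
  have hk0 : (0 : ℝ) ≤ k := Nat.cast_nonneg k
  set A : ℝ := (sg (c + 2)).real univ with hA
  have hA0 : 0 ≤ A := measureReal_nonneg
  set N : ℝ := ((k + c - 1).choose k : ℝ) with hN
  have hN0 : 0 ≤ N := Nat.cast_nonneg _
  have h3 : II c k k * N ≤ A := by
    have h4 : (2 * (k : ℝ) + c) * (II c k k * N) ≤ (2 * (k : ℝ) + c) * A := by
      have : (2 * (k : ℝ) + c) * (II c k k * N) = c * A := by linarith
      rw [this]
      nlinarith
    exact le_of_mul_le_mul_left h4 (by positivity)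
  set B : ℝ := (sg (c + 2)).real (cap c t) with hB
  have hB0 : 0 ≤ B := measureReal_nonneg
  calc (r * Lc c t k) ^ 2 * N = r ^ 2 * (Lc c t k ^ 2 * N) := by ring
    _ ≤ r ^ 2 * (B * II c k k * N) :=
        mul_le_mul_of_nonneg_left (mul_le_mul_of_nonneg_right h1 hN0) (sq_nonneg r)
    _ = r ^ 2 * (B * (II c k k * N)) := by ring
    _ ≤ r ^ 2 * (B * A) :=
        mul_le_mul_of_nonneg_left (mul_le_mul_of_nonneg_left h3 hB0) (sq_nonneg r)
    _ = r * B * (r * A) := by ring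
    _ ≤ r * B * 1 := mul_le_mul_of_nonneg_left hrA (by positivity)
    _ = r * B := mul_one _

end Pool.Agent.N187.SG.BES
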