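import Pool.Agent.N187.SG.B

/-!
Project HG, fourth round (helper549), part SG/SPEC: supersaturation on the sphere from the
eigenvalues.
-/

set_option autoImplicit false

open MeasureTheory Metric Set Filter Topology
open scoped ENNReal RealInnerProductSpace Pointwise

namespace Pool.Agent.N187.SG

open Pool.Agent.N303.SH
open Pool.Agent.N549.SG (G sig near capVol capL S_SPEC)

variable {n : ℕ}

lemma sep : (vC (n := n)).range.SeparatesPoints := by
  intro x y hxy
  have h : ∃ i, (x : E n) i ≠ (y : E n) i := by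
    by_contra h
    push Not at h
    exact hxy (Subtype.ext (by ext i; exact h i))
  obtain ⟨i, hi⟩ := h
  refine ⟨xc i, ⟨xc i, ?_, rfl⟩, hi⟩
  exact ⟨MvPolynomial.X i, by simp [vC]⟩

/-- a uniform approximation by a polynomial -/
lemma approx (g : C(S n, ℝ)) {ε : ℝ} (hε : 0 < ε) :
    ∃ (p : C(S n, ℝ)) (m : ℕ), p ∈ P n m ∧ ∀ x, |p x - g x| ≤ ε := by
  obtain ⟨⟨p, hp⟩, h⟩ :=
    ContinuousMap.exists_mem_subalgebra_near_continuousMap_of_separatesPoints _ sep g ε hε
  obtain ⟨q, hq⟩ := hp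
  refine ⟨p, q.totalDegree, mem_P.2 ⟨q, le_rfl, hq⟩, fun x => ?_⟩
  have h1 := (p - g).norm_coe_le_norm x
  exact h1.trans h.le

/-- the clamp -/
noncomputable def cl (s : ℝ) : ℝ := max 0 (min 1 s)

lemma cl_cont : Continuous cl := by
  unfold cl
  fun_prop

lemma cl_bd (s : ℝ) : 0 ≤ cl s ∧ cl s ≤ 1 :=
  ⟨le_max_left _ _, max_le zero_le_one (min_le_left _ _)⟩

lemma cl_of (s : ℝ) (h0 : 0 ≤ s) (h1 : s ≤ 1) : cl s = s := by
  unfold cl
  rw [min_eq_right h1, max_eq_right h0]

/-- a bounded measurable function is a limit of polynomials almost everywhere -/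
lemma seq {f : S n → ℝ} (hf : Measurable f) (hb : ∀ x, 0 ≤ f x ∧ f x ≤ 1) :
    ∃ (p : ℕ → C(S n, ℝ)) (m : ℕ → ℕ), (∀ j, p j ∈ P n (m j)) ∧ (∀ j x, |p j x| ≤ 2) ∧
      ∀ᵐ x ∂(sg n), Tendsto (fun j => p j x) atTop (𝓝 (f x)) := by
  have hfL : MemLp f 2 (sg n) := by
    refine MemLp.of_bound hf.aestronglyMeasurable 1 (Eventually.of_forall fun x => ?_)
    rw [Real.norm_eq_abs, abs_le]
    exact ⟨by linarith [(hb x).1], (hb x).2⟩
  have hd := ContinuousMap.toLp_denseRange ℝ (sg n) ℝ (p := 2) (by norm_num)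
  have h1 : hfL.toLp f ∈ closure (range (ContinuousMap.toLp (E := ℝ) 2 (sg n) ℝ)) := hd _
  obtain ⟨y, hy, hyl⟩ := mem_closure_iff_seq_limit.1 h1
  choose g hg using hy
  have h2 := (tendstoInMeasure_of_tendsto_Lp hyl).exists_seq_tendsto_ae
  obtain ⟨ns, -, hns⟩ := h2
  have h3 : ∀ᵐ x ∂(sg n), ∀ j, (y j : S n → ℝ) x = g j x := by
    rw [ae_all_iff]
    intro j
    have := ContinuousMap.coeFn_toLp (p := 2) (𝕜 := ℝ) (sg n) (g j)
    rw [hg j] at this
    exact this
  have h4 := hfL.coeFn_toLp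
  have hap : ∀ j : ℕ, ∃ (p : C(S n, ℝ)) (m : ℕ), p ∈ P n m ∧
      ∀ x, |p x - cl (g (ns j) x)| ≤ 1 / ((j : ℝ) + 1) := by
    intro j
    exact approx (⟨fun x => cl (g (ns j) x), cl_cont.comp (g (ns j)).continuous⟩) (by positivity)
  choose p m hp hpa using hap
  refine ⟨p, m, hp, fun j x => ?_, ?_⟩
  · have h5 := hpa j x
    have h6 := cl_bd (g (ns j) x)
    have h7 : 1 / ((j : ℝ) + 1) ≤ 1 := by
      rw [div_le_one (by positivity)]
      have : (0 : ℝ) ≤ j := Nat.cast_nonneg _
      linarith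
    rw [abs_le] at h5 ⊢
    constructor <;> linarith [h5.1, h5.2]
  · filter_upwards [h3, h4, hns] with x hx3 hx4 hx5
    simp only [hx3] at hx5
    rw [hx4] at hx5
    have h8 : Tendsto (fun j => cl (g (ns j) x)) atTop (𝓝 (f x)) := by
      have := (cl_cont.tendsto (f x)).comp hx5
      rw [cl_of _ (hb x).1 (hb x).2] at this
      exact this
    have h9 : Tendsto (fun j => p j x - cl (g (ns j) x)) atTop (𝓝 0) := by
      apply squeeze_zero_norm (fun j => hpa j x)
      exact tendsto_one_div_add_atTop_nhds_zero_nat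
    have := h9.add h8
    simpa using this

lemma low (c : ℕ) (t K : ℝ) (hK : 0 ≤ K) (hl : ∀ k, 1 ≤ k → -K ≤ lr c (chi t) k)
    {f : S (c + 2) → ℝ} (hf : Measurable f) (hb : ∀ x, 0 ≤ f x ∧ f x ≤ 1) :
    lr c (chi t) 0 * (∫ x, f x ∂(sg (c + 2))) ^ 2 -
        K * (sg (c + 2)).real univ * ∫ x, f x * f x ∂(sg (c + 2)) ≤
      (sg (c + 2)).real univ * ∫ w, f w * Tm (chi t) f w ∂(sg (c + 2)) := by
  obtain ⟨p, m, hp, hpb, hpl⟩ := seq hf hb
  have h1 := dct (n := c + 2) (φs := fun _ => chi t) (φ := chi t) (fs := fun j => p j) (f := f)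
    (B := 2) (fun _ => chi_meas t) (fun j => (p j).continuous.measurable)
    (fun _ s => abs_le.2 ⟨by linarith [(chi_bd t s).1], (chi_bd t s).2⟩)
    hpb (fun s => tendsto_const_nhds) hpl
  have h2 : Tendsto (fun j => ∫ x, p j x ∂(sg (c + 2))) atTop (𝓝 (∫ x, f x ∂(sg (c + 2)))) := by
    refine tendsto_integral_of_dominated_convergence (fun _ => 2) (fun j => ?_)
      (integrable_const _) (fun j => ?_) hpl
    · exact (p j).continuous.aestronglyMeasurable
    · exact Eventually.of_forall fun x => hpb j x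
  have h3 : Tendsto (fun j => ∫ x, p j x * p j x ∂(sg (c + 2))) atTop
      (𝓝 (∫ x, f x * f x ∂(sg (c + 2)))) := by
    refine tendsto_integral_of_dominated_convergence (fun _ => 2 * 2) (fun j => ?_)
      (integrable_const _) (fun j => ?_) ?_
    · exact ((p j).continuous.mul (p j).continuous).aestronglyMeasurable
    · refine Eventually.of_forall fun x => ?_
      rw [norm_mul, Real.norm_eq_abs]
      exact mul_le_mul (hpb j x) (hpb j x) (abs_nonneg _) (by norm_num)
    · filter_upwards [hpl] with x hx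
      exact hx.mul hx
  have h4 := ((h2.pow 2).const_mul (lr c (chi t) 0)).sub
    (h3.const_mul (K * (sg (c + 2)).real univ))
  have h5 := h1.const_mul ((sg (c + 2)).real univ)
  exact le_of_tendsto_of_tendsto' h4 h5 fun j => low_P c (m j) t K hK hl (hp j)

lemma sg_pos (c : ℕ) : 0 < (sg (c + 2)).real univ := by
  rw [measureReal_def]
  apply ENNReal.toReal_pos
  · rw [Measure.measure_univ_ne_zero]
    exact Measure.toSphere_ne_zero _
  · exact measure_ne_top _ _

lemma sig_int (c : ℕ) (f : S (c + 2) → ℝ) :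
    ∫ x, f x ∂(sig (c + 2)) = ((sg (c + 2)).real univ)⁻¹ * ∫ x, f x ∂(sg (c + 2)) := by
  unfold sig
  rw [integral_smul_measure, ENNReal.toReal_inv, smul_eq_mul]
  rfl

theorem spec : S_SPEC := by
  intro c t κ hc ht0 ht1 hκ hl f hf hb
  set A : ℝ := (sg (c + 2)).real univ with hA
  have hA0 : 0 < A := sg_pos c
  -- the caps
  have hms : MeasurableSet {y : S (c + 2) | t < (y : E (c + 2)) 0} := by
    have h0 : Continuous (fun x : S (c + 2) => (x : E (c + 2)) 0) := by fun_prop
    exact measurableSet_lt measurable_const h0.measurable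
  have hL : ∀ k, lr c (chi t) k = A * capL c t k := by
    intro k
    unfold capL
    rw [← integral_indicator hms, sig_int, ← hA, ← mul_assoc, mul_inv_cancel₀ hA0.ne', one_mul]
    unfold lr
    congr 1
    ext x
    unfold chi indicator
    simp only [mem_Ioi, mem_ofPred_eq, Pi.one_apply]
    split_ifs <;> simp
  have hV : capVol c t = capL c t 0 := by
    unfold capL capVol
    have : ∀ y : S (c + 2), G c 0 ((y : E (c + 2)) 0) = 1 := fun _ => rfl
    simp only [this]
    rw [integral_const, smul_eq_mul, mul_one, measureReal_restrict_apply MeasurableSet.univ,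
      univ_inter]
  have hV0 : 0 ≤ capVol c t := measureReal_nonneg
  have h1 := low c t (A * (κ * capVol c t)) (by positivity) (fun k hk => by
    rw [hL]
    have := mul_le_mul_of_nonneg_left (hl k hk) hA0.le
    linarith) hf hb
  rw [hL 0, ← hV, ← hA] at h1
  -- f ^ 2 ≤ f
  have hfi : Integrable f (sg (c + 2)) := by
    refine Integrable.of_bound hf.aestronglyMeasurable 1 (Eventually.of_forall fun x => ?_)
    rw [Real.norm_eq_abs, abs_le]
    exact ⟨by linarith [(hb x).1], (hb x).2⟩
  have hff : ∫ x, f x * f x ∂(sg (c + 2)) ≤ ∫ x, f x ∂(sg (c + 2)) := by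
    refine integral_mono_of_nonneg (Eventually.of_forall fun x => mul_self_nonneg _) hfi
      (Eventually.of_forall fun x => ?_)
    have := hb x
    simp only
    nlinarith [this.1, this.2]
  -- the right-hand side
  have hR : ∫ x, f x * ∫ y in near (c + 2) t x, f y ∂(sig (c + 2)) ∂(sig (c + 2)) =
      A⁻¹ * (A⁻¹ * ∫ w, f w * Tm (chi t) f w ∂(sg (c + 2))) := by
    rw [sig_int, ← hA]
    congr 1
    rw [← integral_const_mul]
    congr 1
    ext x
    have hmn : MeasurableSet (near (c + 2) t x) := by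
      have h0 : Continuous (fun y : S (c + 2) => ⟪(x : E (c + 2)), (y : E (c + 2))⟫) := by fun_prop
      exact measurableSet_lt measurable_const h0.measurable
    rw [← integral_indicator hmn, sig_int, ← hA]
    unfold Tm
    have : ∀ y : S (c + 2), (near (c + 2) t x).indicator f y =
        chi t ⟪(x : E (c + 2)), (y : E (c + 2))⟫ * f y := by
      intro y
      unfold chi indicator near
      simp only [mem_Ioi, mem_ofPred_eq, Pi.one_apply]
      split_ifs <;> simp
    simp only [this]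
    ring
  rw [hR, sig_int, ← hA]
  set F : ℝ := ∫ x, f x ∂(sg (c + 2)) with hF
  set Q : ℝ := ∫ w, f w * Tm (chi t) f w ∂(sg (c + 2)) with hQ
  set W : ℝ := ∫ x, f x * f x ∂(sg (c + 2)) with hW
  -- A V F^2 - A κ V A W ≤ A Q
  have h2 : A * (capVol c t * F ^ 2 - A * κ * capVol c t * F) ≤ A * Q := by
    have h3 : A * (κ * capVol c t) * A * W ≤ A * (κ * capVol c t) * A * F :=
      mul_le_mul_of_nonneg_left hff (by positivity)
    linarith
  have h4 := le_of_mul_le_mul_left h2 hA0
  have h5 : capVol c t * ((A⁻¹ * F) ^ 2 - κ * (A⁻¹ * F)) =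
      A⁻¹ * (A⁻¹ * (capVol c t * F ^ 2 - A * κ * capVol c t * F)) := by
    field_simp
  rw [h5]
  exact mul_le_mul_of_nonneg_left (mul_le_mul_of_nonneg_left h4 (by positivity)) (by positivity)

end Pool.Agent.N187.SG
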